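import Pool.Agent.H61DIS.Rooks
import Pool.Agent.H61DIS.Assemble
import Pool.Agent.D28.LowB
import Pool.Agent.D88.Five

/-!
# The maximum number of 2-dominating independent sets is `Θ(6^(n/9))`
-/

open Filter Asymptotics Topology

namespace Pool.Agent.Results.MP_1579d4_co.Theta

open H61DIS

/-- Every graph with `n` vertices has at most `6^(n/9)` 2-dominating independent sets. -/
theorem upper {V : Type} [Fintype V] (G : SimpleGraph V) :
    (mi2 G : ℝ) ≤ (6 : ℝ) ^ ((Fintype.card V : ℝ) / 9) := by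
  refine upper_of G (fun x hx0 hx => (main_of hx0 hx (fun S H hv => ?_) (fun S H h5 hv => ?_) _).1)
  · exact D28.lowB hx0 hx H.IH1 H.IH2 hv
  · exact D88.five hx0 hx H.IH1 H.IH2 h5 hv

theorem upper_max (n : ℕ) : (mi2Max n : ℝ) ≤ (6 : ℝ) ^ ((n : ℝ) / 9) := by
  obtain ⟨G, hG⟩ := exists_mi2Max n
  rw [hG]
  have h := upper G
  rwa [Fintype.card_fin] at h

/-- The answer to Q1: `mi2(G) ≤ 6^(n/9)` for every graph `G` with `n` vertices, the maximum
`mi2(n)` is at least `6^⌊n/9⌋`, it is `Θ(6^(n/9))`, it equals `6^(n/9)` whenever `9` divides `n`,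
and `mi2(n)^(1/n)` tends to `6^(1/9)`. -/
theorem result :
    (∀ (V : Type) [Fintype V] (G : SimpleGraph V),
      ({D : Set V | IsTwoDIS G D}.ncard : ℝ) ≤ (6 : ℝ) ^ ((Fintype.card V : ℝ) / 9)) ∧
    (∀ n : ℕ, 6 ^ (n / 9) ≤ mi2Max n) ∧
    (∀ a : ℕ, mi2Max (9 * a) = 6 ^ a) ∧
    ((fun n : ℕ => (mi2Max n : ℝ)) =Θ[atTop] (fun n : ℕ => (6 : ℝ) ^ ((n : ℝ) / 9))) ∧
    Tendsto (fun n : ℕ => (mi2Max n : ℝ) ^ ((1 : ℝ) / n)) atTop (𝓝 ((6 : ℝ) ^ ((1 : ℝ) / 9))) := by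
  refine ⟨fun V _ G => upper G, lower_max, fun a => ?_, theta_of upper_max lower_max,
    limit_of upper_max lower_max⟩
  apply le_antisymm
  · have h1 := upper_max (9 * a)
    have h2 : (6 : ℝ) ^ (((9 * a : ℕ) : ℝ) / 9) = ((6 ^ a : ℕ) : ℝ) := by
      have e : ((9 * a : ℕ) : ℝ) / 9 = (a : ℝ) := by push_cast; ring
      rw [e, Real.rpow_natCast]; push_cast; ring
    rw [h2] at h1
    exact_mod_cast h1
  · have h1 := lower_max (9 * a)
    rwa [Nat.mul_div_cancel_left a (by norm_num)] at h1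

end Pool.Agent.Results.MP_1579d4_co.Theta
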